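import Pool.Agent.FlipSeq.Quant

set_option autoImplicit false

namespace Pool.Agent.Results.MP_144614_co.TowerGrowth

open Equiv Filter Topology

/-- `R i` (red) and `B i` (blue), `i < n`, are `2 n` different points of the plane in general
position: no three of them are collinear unless all three have the same colour. -/
def GenPos {n : ℕ} (R B : Fin n → ℝ × ℝ) : Prop :=
  Function.Injective R ∧ Function.Injective B ∧ Disjoint (Set.range R) (Set.range B) ∧
  ∀ p ∈ Set.range R ∪ Set.range B, ∀ q ∈ Set.range R ∪ Set.range B,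
    ∀ r ∈ Set.range R ∪ Set.range B, p ≠ q → q ≠ r → p ≠ r →
    Collinear ℝ ({p, q, r} : Set (ℝ × ℝ)) →
    ({p, q, r} : Set (ℝ × ℝ)) ⊆ Set.range R ∨ ({p, q, r} : Set (ℝ × ℝ)) ⊆ Set.range B

/-- A matching is a permutation `σ`: the red point `i` is joined to the blue point `σ i`. The
segments at the red points `i` and `j` cross: they have a common point inside both. -/
def Cross {n : ℕ} (R B : Fin n → ℝ × ℝ) (σ : Perm (Fin n)) (i j : Fin n) : Prop :=
  (openSegment ℝ (R i) (B (σ i)) ∩ openSegment ℝ (R j) (B (σ j))).Nonempty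

/-- One flip turns the matching `σ` into `τ`: two crossing segments are replaced by two disjoint
segments on the same four end points. -/
def Flip {n : ℕ} (R B : Fin n → ℝ × ℝ) (σ τ : Perm (Fin n)) : Prop :=
  ∃ i j, i ≠ j ∧ Cross R B σ i j ∧ τ i = σ j ∧ τ j = σ i ∧ (∀ l, l ≠ i → l ≠ j → τ l = σ l) ∧
    segment ℝ (R i) (B (τ i)) ∩ segment ℝ (R j) (B (τ j)) = ∅

/-- `M 0 → M 1 → … → M k` is an untangle sequence: `k` flips, the last matching has no crossing. -/
def IsUntangle {n : ℕ} (R B : Fin n → ℝ × ℝ) (M : ℕ → Perm (Fin n)) (k : ℕ) : Prop :=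
  (∀ t < k, Flip R B (M t) (M (t + 1))) ∧ ∀ i j, i ≠ j → ¬ Cross R B (M k) i j

/-- The lengths of all untangle sequences of `n` red and `n` blue points in general position. -/
def lengths (n : ℕ) : Set ℕ :=
  {k | ∃ R B : Fin n → ℝ × ℝ, GenPos R B ∧ ∃ M, IsUntangle R B M k}

/-- `D n` is the maximum length of an untangle sequence. -/
noncomputable def D (n : ℕ) : ℕ := sSup (lengths n)

/-- the tower sequence `2, 4^2 * 2 = 32, 4^32 * 32, …` -/
def tower : ℕ → ℕ
  | 0 => 2
  | s + 1 => 4 ^ tower s * tower s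

/-! ### geometry -/

section geom

/-- the area form -/
def det (u v w : ℝ × ℝ) : ℝ := (v.1 - u.1) * (w.2 - u.2) - (w.1 - u.1) * (v.2 - u.2)

theorem collinear_of_det {u v w : ℝ × ℝ} (huv : u ≠ v) (h : det u v w = 0) :
    Collinear ℝ ({u, v, w} : Set (ℝ × ℝ)) := by
  rw [collinear_iff_of_mem (p₀ := u) (by simp)]
  refine ⟨v - u, ?_⟩
  have huv' : v.1 - u.1 ≠ 0 ∨ v.2 - u.2 ≠ 0 := by
    by_contra hcon
    push Not at hcon
    apply huv
    ext
    · linarith [hcon.1]
    · linarith [hcon.2]
  intro p hp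
  simp only [Set.mem_insert_iff, Set.mem_singleton_iff] at hp
  rcases hp with rfl | rfl | rfl
  · exact ⟨0, by simp⟩
  · exact ⟨1, by simp⟩
  · unfold det at h
    rcases huv' with h1 | h1
    · refine ⟨(p.1 - u.1) / (v.1 - u.1), ?_⟩
      ext
      · simp
        field_simp
        ring
      · simp
        field_simp
        linarith
    · refine ⟨(p.2 - u.2) / (v.2 - u.2), ?_⟩
      ext
      · simp
        field_simp
        linarith
      · simp
        field_simp
        ring

theorem det_of_collinear {u v w : ℝ × ℝ} (h : Collinear ℝ ({u, v, w} : Set (ℝ × ℝ))) :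
    det u v w = 0 := by
  have := Pool.Agent.FlipSeq.cross_zero h
  unfold det
  linarith

variable {n : ℕ} {R B : Fin n → ℝ × ℝ}

theorem GenPos.RRB (h : GenPos R B) {i j : Fin n} (hij : i ≠ j) (l : Fin n) :
    det (R i) (R j) (B l) ≠ 0 := by
  intro h0
  have hRR : R i ≠ R j := fun he => hij (h.1 he)
  have hRB : ∀ i l, R i ≠ B l := fun i l he =>
    Set.disjoint_left.1 h.2.2.1 ⟨i, rfl⟩ ⟨l, he.symm⟩
  rcases h.2.2.2 _ (Or.inl ⟨i, rfl⟩) _ (Or.inl ⟨j, rfl⟩) _ (Or.inr ⟨l, rfl⟩) hRR (hRB j l)
    (hRB i l) (collinear_of_det hRR h0) with h1 | h1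
  · exact Set.disjoint_left.1 h.2.2.1 (h1 (by simp)) ⟨l, rfl⟩
  · exact Set.disjoint_left.1 h.2.2.1 ⟨i, rfl⟩ (h1 (by simp))

theorem GenPos.RBB (h : GenPos R B) (i : Fin n) {l m : Fin n} (hlm : l ≠ m) :
    det (R i) (B l) (B m) ≠ 0 := by
  intro h0
  have hBB : B l ≠ B m := fun he => hlm (h.2.1 he)
  have hRB : ∀ i l, R i ≠ B l := fun i l he =>
    Set.disjoint_left.1 h.2.2.1 ⟨i, rfl⟩ ⟨l, he.symm⟩
  rcases h.2.2.2 _ (Or.inl ⟨i, rfl⟩) _ (Or.inr ⟨l, rfl⟩) _ (Or.inr ⟨m, rfl⟩) (hRB i l) hBB
    (hRB i m) (collinear_of_det (hRB i l) h0) with h1 | h1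
  · exact Set.disjoint_left.1 h.2.2.1 (h1 (by simp)) ⟨l, rfl⟩
  · exact Set.disjoint_left.1 h.2.2.1 ⟨i, rfl⟩ (h1 (by simp))

/-- crossing segments: the other pairing is disjoint -/
theorem disjoint_of_cross {u v p q : ℝ × ℝ} (h1 : det v p u ≠ 0)
    (hX : (openSegment ℝ u p ∩ openSegment ℝ v q).Nonempty) :
    segment ℝ u q ∩ segment ℝ v p = ∅ := by
  rw [Set.eq_empty_iff_forall_notMem]
  rintro Y ⟨⟨c, d, hc, hd, hcd, rfl⟩, ⟨e, f, he, hf, hef, hY⟩⟩
  obtain ⟨X, ⟨a, b, ha, hb, hab, hX1⟩, ⟨a', b', ha', hb', hab', hX2⟩⟩ := hX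
  have e1 := congrArg Prod.fst (hX1.trans hX2.symm)
  have e2 := congrArg Prod.snd (hX1.trans hX2.symm)
  have e3 := congrArg Prod.fst hY
  have e4 := congrArg Prod.snd hY
  simp only [Prod.fst_add, Prod.smul_fst, smul_eq_mul, Prod.snd_add, Prod.smul_snd] at e1 e2 e3 e4
  have hb1 : b = 1 - a := by linarith
  have ha1 : a' = 1 - b' := by linarith
  have hc1 : c = 1 - d := by linarith
  have he1 : e = 1 - f := by linarith
  subst hb1 ha1 hc1 he1
  -- the area form of `v p` at `X` and at `Y`
  have k1 : a * det v p u = b' * det v p q := by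
    unfold det
    linear_combination (p.1 - v.1) * e2 - (p.2 - v.2) * e1
  have k2 : (1 - d) * det v p u + d * det v p q = 0 := by
    unfold det
    linear_combination -(p.1 - v.1) * e4 + (p.2 - v.2) * e3
  have k3 : ((1 - d) * b' + d * a) * det v p u = 0 := by
    linear_combination b' * k2 + d * k1
  have k4 : 0 < (1 - d) * b' + d * a := by
    rcases eq_or_lt_of_le hd with h0 | h0
    · rw [← h0]
      linarith
    · have := mul_pos h0 ha
      have := mul_nonneg hc hb'.le
      linarith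
  rcases mul_eq_zero.1 k3 with h | h
  · linarith
  · exact h1 h

theorem det_swap (u v w : ℝ × ℝ) : det v u w = - det u v w := by
  unfold det
  ring

theorem det_rot (u v w : ℝ × ℝ) : det v w u = det u v w := by
  unfold det
  ring

/-- In general position every crossing can be flipped. -/
theorem GenPos.flip (h : GenPos R B) {σ : Perm (Fin n)} {i j : Fin n} (hij : i ≠ j)
    (hc : Cross R B σ i j) : Flip R B σ (σ * swap i j) := by
  have e1 : (σ * swap i j) i = σ j := by simp
  have e2 : (σ * swap i j) j = σ i := by simp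
  refine ⟨i, j, hij, hc, e1, e2, ?_, ?_⟩
  · intro l hl hl'
    rw [Perm.mul_apply, swap_apply_of_ne_of_ne hl hl']
  · rw [e1, e2]
    refine disjoint_of_cross ?_ hc
    rw [det_rot (R i) (R j) (B (σ i))]
    exact h.RRB hij _

/-! ### flips shorten the matching -/

/-- the point as a complex number -/
def toC (p : ℝ × ℝ) : ℂ := ⟨p.1, p.2⟩

/-- total length -/
noncomputable def len (R B : Fin n → ℝ × ℝ) (σ : Perm (Fin n)) : ℝ :=
  ∑ i, dist (toC (R i)) (toC (B (σ i)))

theorem toC_inj {p q : ℝ × ℝ} (h : toC p = toC q) : p = q := by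
  have h1 := congrArg Complex.re h
  have h2 := congrArg Complex.im h
  exact Prod.ext h1 h2

theorem toC_comb (a b : ℝ) (p q : ℝ × ℝ) : toC (a • p + b • q) = a • toC p + b • toC q := by
  apply Complex.ext <;> simp [toC]

theorem dist_add_of_comb {a b : ℝ} (ha : 0 < a) (hb : 0 < b) (hab : a + b = 1) (p q : ℝ × ℝ) :
    dist (toC p) (toC (a • p + b • q)) + dist (toC (a • p + b • q)) (toC q) =
      dist (toC p) (toC q) := by
  rw [toC_comb]
  apply dist_add_dist_of_mem_segment
  exact ⟨a, b, ha.le, hb.le, hab, rfl⟩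

theorem dist_lt {u v p q X : ℝ × ℝ} (h1 : det u p q ≠ 0) (hX1 : X ∈ openSegment ℝ u p)
    (hX2 : X ∈ openSegment ℝ v q) :
    dist (toC u) (toC q) + dist (toC v) (toC p) < dist (toC u) (toC p) + dist (toC v) (toC q) := by
  obtain ⟨a, b, ha, hb, hab, hX⟩ := hX1
  obtain ⟨a', b', ha', hb', hab', hX'⟩ := hX2
  have d1 := dist_add_of_comb ha hb hab u p
  have d2 := dist_add_of_comb ha' hb' hab' v q
  rw [hX] at d1
  rw [hX'] at d2
  have t1 := dist_triangle (toC v) (toC X) (toC p)
  have t2 : dist (toC u) (toC q) < dist (toC u) (toC X) + dist (toC X) (toC q) := by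
    refine lt_of_le_of_ne (dist_triangle _ _ _) ?_
    intro he
    have h2 : toC X ∈ segment ℝ (toC u) (toC q) := by
      exact mem_segment_iff_wbtw.2 (dist_add_dist_eq_iff.1 he.symm)
    obtain ⟨c, d, hc, hd, hcd, hX''⟩ := h2
    rw [← toC_comb] at hX''
    have h3 := toC_inj hX''
    rw [← hX] at h3
    have e1 := congrArg Prod.fst h3
    have e2 := congrArg Prod.snd h3
    simp only [Prod.fst_add, Prod.smul_fst, smul_eq_mul, Prod.snd_add, Prod.smul_snd] at e1 e2
    have hb1 : a = 1 - b := by linarith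
    have hc1 : c = 1 - d := by linarith
    subst hb1 hc1
    -- X lies on u p and on u q: b (p - u) = d (q - u)
    have k1 : b * det u p q = 0 := by
      unfold det
      linear_combination (q.1 - u.1) * e2 - (q.2 - u.2) * e1
    rcases mul_eq_zero.1 k1 with h | h
    · linarith
    · exact h1 h
  rw [dist_comm (toC X) (toC q)] at t2
  rw [dist_comm (toC X) (toC p)] at t1
  rw [dist_comm (toC X) (toC p)] at d1
  rw [dist_comm (toC X) (toC q)] at d2
  linarith

theorem GenPos.len_lt (h : GenPos R B) {σ τ : Perm (Fin n)} (hf : Flip R B σ τ) :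
    len R B τ < len R B σ := by
  obtain ⟨i, j, hij, ⟨X, hX1, hX2⟩, h1, h2, h3, -⟩ := hf
  unfold len
  have key : ∀ ρ : Perm (Fin n), ∑ l, dist (toC (R l)) (toC (B (ρ l))) =
      dist (toC (R i)) (toC (B (ρ i))) + dist (toC (R j)) (toC (B (ρ j))) +
      ∑ l ∈ (Finset.univ.erase i).erase j, dist (toC (R l)) (toC (B (ρ l))) := by
    intro ρ
    rw [← Finset.add_sum_erase Finset.univ _ (Finset.mem_univ i),
      ← Finset.add_sum_erase (Finset.univ.erase i) _
        (Finset.mem_erase.2 ⟨hij.symm, Finset.mem_univ j⟩), add_assoc]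
  rw [key σ, key τ, h1, h2]
  have h4 : ∑ l ∈ (Finset.univ.erase i).erase j, dist (toC (R l)) (toC (B (τ l))) =
      ∑ l ∈ (Finset.univ.erase i).erase j, dist (toC (R l)) (toC (B (σ l))) := by
    refine Finset.sum_congr rfl fun l hl => ?_
    rw [Finset.mem_erase, Finset.mem_erase] at hl
    rw [h3 l hl.2.1 hl.1]
  rw [h4]
  have h5 := dist_lt (h.RBB i (fun he => hij (σ.injective he))) hX1 hX2
  linarith

/-- Every matching can be untangled. -/
theorem GenPos.exists_untangle (h : GenPos R B) (σ : Perm (Fin n)) :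
    ∃ k M, M 0 = σ ∧ IsUntangle R B M k := by
  have hwf : WellFounded (fun σ τ : Perm (Fin n) => len R B σ < len R B τ) :=
    @Finite.wellFounded_of_trans_of_irrefl _ _ _ ⟨fun _ _ _ => lt_trans⟩ ⟨fun _ => lt_irrefl _⟩
  induction σ using hwf.induction with
  | _ σ ih =>
    by_cases hc : ∃ i j, i ≠ j ∧ Cross R B σ i j
    · obtain ⟨i, j, hij, hc⟩ := hc
      have hf := h.flip hij hc
      obtain ⟨k, M, h0, hM, hM'⟩ := ih _ (h.len_lt hf)
      refine ⟨k + 1, fun t => Nat.casesOn t σ M, rfl, ?_, hM'⟩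
      intro t ht
      cases t with
      | zero =>
        show Flip R B σ (M 0)
        rw [h0]
        exact hf
      | succ t => exact hM t (by omega)
    · push Not at hc
      exact ⟨0, fun _ => σ, rfl, by simp, hc⟩

theorem GenPos.length_le (h : GenPos R B) {M : ℕ → Perm (Fin n)} {k : ℕ}
    (hM : ∀ t < k, Flip R B (M t) (M (t + 1))) : k < n.factorial := by
  have hanti : ∀ t s, t < s → s ≤ k → len R B (M s) < len R B (M t) := by
    intro t s hts
    induction s, hts using Nat.le_induction with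
    | base => exact fun hs => h.len_lt (hM t (by omega))
    | succ s _ ih => exact fun hs => (h.len_lt (hM s (by omega))).trans (ih (by omega))
  have hinj : Function.Injective (fun t : Fin (k + 1) => M t) := by
    intro s t hst
    by_contra hne
    have hne' : (s : ℕ) ≠ t := fun he => hne (Fin.ext he)
    rcases lt_or_gt_of_ne hne' with h1 | h1
    · exact (hanti s t h1 (by omega)).ne (by simp only at hst; rw [hst])
    · exact (hanti t s h1 (by omega)).ne (by simp only at hst; rw [hst])
  have := Fintype.card_le_of_injective _ hinj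
  rw [Fintype.card_fin, Fintype.card_perm, Fintype.card_fin] at this
  omega

end geom

/-! ### the configurations -/

/-- crossing of two segments in the dual model -/
theorem segments_cross' {xp xq sA bA sB bB : ℝ} (hA : 0 < sA) (hB : 0 < sB) (hx : xp < xq)
    (h1 : bB - sB * xp < bA - sA * xp) (h2 : bB - sB * xq < bA - sA * xq) :
    (openSegment ℝ ((xp, 0) : ℝ × ℝ) (bA / sA, 1 / sA) ∩
      openSegment ℝ ((xq, 0) : ℝ × ℝ) (bB / sB, 1 / sB)).Nonempty := by
  set E := (bA - sA * xp) - (bB - sB * xq) with hE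
  have hDA : sA * (xq - xp) < E := by
    rw [hE]
    linarith
  have hDB : sB * (xq - xp) < E := by
    rw [hE]
    linarith
  have hd : 0 < xq - xp := by linarith
  have hE0 : 0 < E := lt_trans (mul_pos hA hd) hDA
  refine ⟨(xp + (bA - sA * xp) * ((xq - xp) / E), (xq - xp) / E), ?_, ?_⟩
  · refine ⟨1 - sA * ((xq - xp) / E), sA * ((xq - xp) / E), ?_, ?_, by ring, ?_⟩
    · have : sA * ((xq - xp) / E) < 1 := by
        rw [← mul_div_assoc, div_lt_one hE0]
        exact hDA
      linarith
    · positivity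
    · ext
      · simp only [Prod.smul_mk, smul_eq_mul, Prod.mk_add_mk]
        field_simp
        ring
      · simp only [Prod.smul_mk, smul_eq_mul, Prod.mk_add_mk]
        field_simp
        ring
  · refine ⟨1 - sB * ((xq - xp) / E), sB * ((xq - xp) / E), ?_, ?_, by ring, ?_⟩
    · have : sB * ((xq - xp) / E) < 1 := by
        rw [← mul_div_assoc, div_lt_one hE0]
        exact hDB
      linarith
    · positivity
    · ext
      · simp only [Prod.smul_mk, smul_eq_mul, Prod.mk_add_mk]
        have h5 : (xq - xp) = ((bA - sA * xp) - (bB - sB * xq)) * ((xq - xp) / E) := by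
          rw [← hE]
          field_simp
        have h6 : sB * ((xq - xp) / E) * (bB / sB) = bB * ((xq - xp) / E) := by
          field_simp
        rw [h6]
        linarith
      · simp only [Prod.smul_mk, smul_eq_mul, Prod.mk_add_mk]
        field_simp
        ring

open Pool.Agent.FlipSeq in
theorem geometric {n T : ℕ} (h : Conf ∅ n T 0) :
    ∃ R B : Fin n → ℝ × ℝ, GenPos R B ∧ (∀ i, (R i).2 = 0) ∧ (∀ i, 0 < (B i).2) ∧
      ∃ s : ℕ → Perm (Fin n), ∀ t < T, Flip R B (s t) (s (t + 1)) := by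
  obtain ⟨ι, _, _, x, a, b, σ, τ, L, hgood, hcard, -, hpath, hT, -⟩ := h
  obtain ⟨s, -, hs⟩ := hpath.seq
  set e : ι ≃ Fin n := Fintype.equivFinOfCardEq hcard with he
  set K : ℝ := ∑ l, |a l| + 1 with hK
  have hpos : ∀ l, 0 < K - a l := by
    intro l
    have h1 : a l ≤ |a l| := le_abs_self _
    have h2 : |a l| ≤ ∑ l, |a l| := Finset.single_le_sum (f := fun l => |a l|)
      (fun _ _ => abs_nonneg _) (Finset.mem_univ l)
    rw [hK]
    linarith
  have hgen : ∀ p l l', l ≠ l' → b l - (K - a l) * x p ≠ b l' - (K - a l') * x p := by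
    intro p l l' hl h
    apply hgood.2 p l l' hl
    linarith
  have hG : GenPos (fun i => ((x (e.symm i), 0) : ℝ × ℝ))
      (fun j => (b (e.symm j) / (K - a (e.symm j)), 1 / (K - a (e.symm j)))) := by
    refine ⟨?_, ?_, ?_, ?_⟩
    · intro i j h
      simp only [Prod.mk.injEq, and_true] at h
      exact e.symm.injective (hgood.1 h)
    · intro i j h
      simp only [Prod.mk.injEq] at h
      by_contra hne
      have hne' : e.symm i ≠ e.symm j := fun h => hne (e.symm.injective h)
      have h1 := hpos (e.symm i)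
      have h2 := hpos (e.symm j)
      have h3 : K - a (e.symm i) = K - a (e.symm j) := by
        have := h.2
        field_simp at this
        linarith
      have h4 : b (e.symm i) = b (e.symm j) := by
        have := h.1
        rw [h3] at this
        field_simp at this
        linarith
      apply hgen (e.symm i) _ _ hne'
      rw [h3, h4]
    · rw [Set.disjoint_left]
      rintro _ ⟨i, rfl⟩ ⟨j, h⟩
      simp only [Prod.mk.injEq] at h
      have h1 := hpos (e.symm j)
      have h2 : 0 < 1 / (K - a (e.symm j)) := by positivity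
      exact h2.ne' h.2
    · have RRB : ∀ (i j l : Fin n), i ≠ j → ¬ Collinear ℝ ({((x (e.symm i), 0) : ℝ × ℝ),
          (x (e.symm j), 0), (b (e.symm l) / (K - a (e.symm l)), 1 / (K - a (e.symm l)))} :
            Set (ℝ × ℝ)) := by
        intro i j l hij
        have h1 := hpos (e.symm l)
        apply not_collinear_RRB _ (by positivity)
        intro h
        exact hij (e.symm.injective (hgood.1 h))
      have RBB : ∀ (i l m : Fin n), l ≠ m → ¬ Collinear ℝ ({((x (e.symm i), 0) : ℝ × ℝ),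
          (b (e.symm l) / (K - a (e.symm l)), 1 / (K - a (e.symm l))),
          (b (e.symm m) / (K - a (e.symm m)), 1 / (K - a (e.symm m)))} :
            Set (ℝ × ℝ)) := by
        intro i l m hlm
        apply not_collinear_RBB (hpos _) (hpos _)
        exact hgen _ _ _ (fun h => hlm (e.symm.injective h))
      have perm1 : ∀ {p q r : ℝ × ℝ}, Collinear ℝ ({p, q, r} : Set (ℝ × ℝ)) →
          Collinear ℝ ({q, p, r} : Set (ℝ × ℝ)) := by
        intro p q r h
        rwa [Set.insert_comm]
      have perm2 : ∀ {p q r : ℝ × ℝ}, Collinear ℝ ({p, q, r} : Set (ℝ × ℝ)) →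
          Collinear ℝ ({p, r, q} : Set (ℝ × ℝ)) := by
        intro p q r h
        rwa [Set.pair_comm r q]
      rintro p (⟨i, rfl⟩ | ⟨i, rfl⟩) q (⟨j, rfl⟩ | ⟨j, rfl⟩) r (⟨l, rfl⟩ | ⟨l, rfl⟩) hpq hqr hpr hc
      · left
        rintro _ (rfl | rfl | rfl)
        · exact ⟨i, rfl⟩
        · exact ⟨j, rfl⟩
        · exact ⟨l, rfl⟩
      · exact absurd hc (RRB i j l (fun h => hpq (by rw [h])))
      · exact absurd (perm2 hc) (RRB i l j (fun h => hpr (by rw [h])))
      · exact absurd hc (RBB i j l (fun h => hqr (by rw [h])))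
      · exact absurd (perm2 (perm1 hc)) (RRB j l i (fun h => hqr (by rw [h])))
      · exact absurd (perm1 hc) (RBB j i l (fun h => hpr (by rw [h])))
      · exact absurd (perm1 (perm2 hc)) (RBB l i j (fun h => hpq (by rw [h])))
      · right
        rintro _ (rfl | rfl | rfl)
        · exact ⟨i, rfl⟩
        · exact ⟨j, rfl⟩
        · exact ⟨l, rfl⟩
  refine ⟨_, _, hG, fun _ => rfl, fun j => ?_, fun t => (e.symm.trans (s t)).trans e, ?_⟩
  · have := hpos (e.symm j)
    simp only
    positivity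
  intro t ht
  rw [← hT] at ht
  obtain ⟨p, q, h1, h2, h3, h4⟩ := hs t ht
  have hst : (e.symm.trans (s (t + 1))).trans e = (e.symm.trans (s t)).trans e *
      swap (e p) (e q) := by
    rw [h4]
    ext i
    simp only [Equiv.trans_apply, Equiv.Perm.mul_apply, Equiv.swap_apply_def]
    congr 2
    by_cases hi : i = e p
    · subst hi
      simp
    · by_cases hi' : i = e q
      · have hqp : q ≠ p := fun h => hi (by rw [hi', h])
        subst hi'
        simp [hqp]
      · rw [if_neg hi, if_neg hi', if_neg, if_neg]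
        · intro h
          exact hi' (by rw [← h]; simp)
        · intro h
          exact hi (by rw [← h]; simp)
  simp only
  rw [hst]
  apply hG.flip
  · intro h
    have := e.injective h
    subst this
    exact lt_irrefl _ h1
  · unfold Cross
    simp only [Equiv.trans_apply, Equiv.symm_apply_apply]
    apply segments_cross' (hpos _) (hpos _) h1
    · linarith
    · linarith

theorem tower_eq : tower = Pool.Agent.FlipSeq.tow := by
  funext s
  induction s with
  | zero => rfl
  | succ s ih => rw [tower, Pool.Agent.FlipSeq.tow, ih]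

theorem line_version (s n : ℕ) (hn : tower s ≤ n) :
    ∃ R B : Fin n → ℝ × ℝ, GenPos R B ∧ (∀ i, (R i).2 = 0) ∧ (∀ i, 0 < (B i).2) ∧
      ∃ M k, IsUntangle R B M k ∧ (3 / 2 : ℝ) ^ s * (n : ℝ) ^ 2 ≤ 16 * k := by
  rw [tower_eq] at hn
  obtain ⟨T, hc, hT⟩ := Pool.Agent.FlipSeq.conf_all' s n hn
  obtain ⟨R, B, hG, hR, hB, s', hs'⟩ := geometric hc
  obtain ⟨k, M, hM0, hM⟩ := hG.exists_untangle (s' T)
  refine ⟨R, B, hG, hR, hB, fun t => if t ≤ T then s' t else M (t - T), T + k, ⟨?_, ?_⟩, ?_⟩
  · intro t ht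
    by_cases h1 : t < T
    · simp only [h1.le, if_true, Nat.succ_le_of_lt h1]
      exact hs' t h1
    · by_cases h2 : t = T
      · subst h2
        have h3 : ¬ t + 1 ≤ t := by omega
        simp only [le_refl, if_true, h3, if_false]
        rw [← hM0]
        have := hM.1 0 (by omega)
        simpa using this
      · have h3 : ¬ t ≤ T := by omega
        have h4 : ¬ t + 1 ≤ T := by omega
        simp only [h3, h4, if_false]
        have := hM.1 (t - T) (by omega)
        rwa [show t - T + 1 = t + 1 - T by omega] at this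
  · have h5 : (if T + k ≤ T then s' (T + k) else M (T + k - T)) = M k := by
      by_cases hk : k = 0
      · subst hk
        simp [hM0]
      · rw [if_neg (by omega)]
        congr 1
        omega
    simp only
    rw [h5]
    exact hM.2
  · have h1 : ((3 : ℝ)) ^ s * (n : ℝ) ^ 2 ≤ 2 ^ s * (16 * T) := by exact_mod_cast hT
    have h2 : (3 / 2 : ℝ) ^ s * (n : ℝ) ^ 2 = (3 ^ s * (n : ℝ) ^ 2) / 2 ^ s := by
      rw [div_pow]
      ring
    rw [h2, div_le_iff₀ (by positivity)]
    push_cast
    have h3 : (0 : ℝ) ≤ k := Nat.cast_nonneg _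
    have h4 : (0 : ℝ) < 2 ^ s := by positivity
    nlinarith [mul_nonneg h4.le h3]

theorem bdd (n : ℕ) : BddAbove (lengths n) := by
  refine ⟨n.factorial, ?_⟩
  rintro k ⟨R, B, hG, M, hM⟩
  exact (hG.length_le hM.1).le

/-- `D(n)` is superquadratic; red points on a line suffice. -/
theorem result :
    (∀ n, (lengths n).Nonempty ∧ BddAbove (lengths n)) ∧
    (∀ s n, tower s ≤ n → ∃ R B : Fin n → ℝ × ℝ, GenPos R B ∧
      (∀ i, (R i).2 = 0) ∧ (∀ i, 0 < (B i).2) ∧
      ∃ M k, IsUntangle R B M k ∧ (3 / 2 : ℝ) ^ s * (n : ℝ) ^ 2 ≤ 16 * k) ∧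
    (∀ s n, tower s ≤ n → (3 / 2 : ℝ) ^ s * (n : ℝ) ^ 2 ≤ 16 * (D n : ℝ)) ∧
    Tendsto (fun n : ℕ => (D n : ℝ) / (n : ℝ) ^ 2) atTop atTop := by
  have h3 : ∀ s n, tower s ≤ n → (3 / 2 : ℝ) ^ s * (n : ℝ) ^ 2 ≤ 16 * (D n : ℝ) := by
    intro s n hn
    obtain ⟨R, B, hG, -, -, M, k, hM, hk⟩ := line_version s n hn
    have h1 : k ≤ D n := le_csSup (bdd n) ⟨R, B, hG, M, hM⟩
    have h2 : (k : ℝ) ≤ D n := by exact_mod_cast h1
    linarith
  refine ⟨fun n => ⟨?_, bdd n⟩, line_version, h3, ?_⟩
  · -- points on a parabola would do; we use the padded two point configuration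
    rcases lt_or_ge n 2 with hn | hn
    · have hsub : ∀ i j : Fin n, i = j := by
        intro i j
        apply Fin.ext
        omega
      refine ⟨0, fun _ => (0, 0), fun _ => (0, 1), ⟨fun i j _ => hsub i j, fun i j _ => hsub i j,
        ?_, ?_⟩, fun _ => 1, by simp, fun i j hij => absurd (hsub i j) hij⟩
      · rw [Set.disjoint_left]
        rintro _ ⟨i, rfl⟩ ⟨j, hj⟩
        simp at hj
      · rintro p (⟨i, rfl⟩ | ⟨i, rfl⟩) q (⟨j, rfl⟩ | ⟨j, rfl⟩) r (⟨l, rfl⟩ | ⟨l, rfl⟩)
          h1 h2 h3 _ <;> simp at h1 h2 h3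
    · obtain ⟨R, B, hG, -, -, M, k, hM, -⟩ := line_version 0 n hn
      exact ⟨k, R, B, hG, M, hM⟩
  · rw [tendsto_atTop]
    intro C
    obtain ⟨s, hs⟩ := pow_unbounded_of_one_lt (16 * C) (by norm_num : (1 : ℝ) < 3 / 2)
    filter_upwards [eventually_ge_atTop (max (tower s) 1)] with n hn
    have h4 := h3 s n ((le_max_left _ _).trans hn)
    have hn1 : 1 ≤ n := (le_max_right _ _).trans hn
    have h5 : (0 : ℝ) < (n : ℝ) ^ 2 := by positivity
    rw [le_div_iff₀ h5]
    nlinarith [mul_lt_mul_of_pos_right hs h5]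

end Pool.Agent.Results.MP_144614_co.TowerGrowth
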